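import Pool.Agent.Helper71.FX.St

/-! # Project FX: module LC (decay of the frequency coefficients) -/

set_option autoImplicit false

open MeasureTheory Filter Topology
open scoped FourierTransform RealInnerProductSpace Matrix ComplexConjugate ENNReal

noncomputable section

namespace Pool.Agent.Helper93.FX

open Wav Pool.Agent.Helper71.FX

theorem integral_act_real {n : ℕ} {M : Matrix (Fin n) (Fin n) ℝ} (hM : M.det ≠ 0)
    (g : E n → ℝ) : ∫ x, g (act M x) = |M.det|⁻¹ * ∫ y, g y := by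
  rw [← (act_emb hM).integral_map, map_act hM, integral_smul_measure,
    ENNReal.toReal_ofReal (abs_nonneg _), abs_inv, smul_eq_mul]

theorem norm_faff {n : ℕ} (A : Matrix (Fin n) (Fin n) ℝ) (Ψ : E n → ℂ) (j : ℤ) (k : Fin n → ℤ)
    (ξ : E n) : ‖faff A Ψ j k ξ‖ = |A.det| ^ (-(j : ℝ) / 2) * ‖Ψ (act (Aᵀ ^ (-j)) ξ)‖ := by
  unfold faff ee
  rw [norm_mul, norm_mul, Complex.norm_real, Matrix.transpose_zpow]
  have h1 : ‖Complex.exp (2 * Real.pi * Complex.I *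
      ((-⟪act (A ^ (-j)) (ivec k), ξ⟫ : ℝ) : ℂ))‖ = 1 := by
    rw [show (2 * Real.pi * Complex.I * ((-⟪act (A ^ (-j)) (ivec k), ξ⟫ : ℝ) : ℂ) : ℂ) =
      ((2 * Real.pi * (-⟪act (A ^ (-j)) (ivec k), ξ⟫) : ℝ) : ℂ) * Complex.I by push_cast; ring]
    exact Complex.norm_exp_ofReal_mul_I _
  rw [h1, mul_one, Real.norm_of_nonneg (by positivity)]

theorem abs_coord_le {n : ℕ} (η : E n) (b : Fin n) : |η.ofLp b| ≤ ‖η‖ := by
  have := PiLp.norm_apply_le η b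
  rwa [Real.norm_eq_abs] at this

theorem pLC (pb : StPB) (zo : StZO) (de : StDE) (lf : StLF) : StLC := by
  intro n L N A ψ hG
  have hdet : A.det ≠ 0 := expansive_det hG.exp
  have hdetT : Aᵀ.det ≠ 0 := by rwa [Matrix.det_transpose]
  have hu : IsUnit Aᵀ.det := isUnit_iff_ne_zero.2 hdetT
  have hN0 : 0 ≤ N := le_trans (Nat.cast_nonneg n) hG.big.le
  have hD : 0 < |A.det| := abs_pos.2 hdet
  have h1 : ∀ l, Integrable (ψ l) := fun l => (hG.loc l).integrable hG.big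
  obtain ⟨Ψ, hΨ⟩ : ∃ Ψ : Fin L → E n → ℂ, Ψ = fun l => 𝓕 (ψ l) := ⟨_, rfl⟩
  have hΨl : ∀ l, 𝓕 (ψ l) = Ψ l := fun l => by rw [hΨ]
  have hcont : ∀ l, Continuous (Ψ l) := fun l => by
    rw [← hΨl]
    exact N2Aux.fourier_cont (h1 l)
  obtain ⟨C, hC0, hC⟩ := N2Aux.common_bound (Ψ := Ψ) (N := N) fun l => by
    rw [← hΨl]
    exact (hG.loc l).fourier_bound hG.big
  have hone : ∀ ξ : E n, (1 + ‖ξ‖) ^ (-N) ≤ 1 := fun ξ =>
    Real.rpow_le_one_of_one_le_of_nonpos (by have := norm_nonneg ξ; linarith) (by linarith)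
  have hC1 : ∀ l ξ, ‖Ψ l ξ‖ ≤ C := fun l ξ => by
    refine (hC l ξ).trans ?_
    have := hone ξ
    nlinarith
  obtain ⟨H, α, hα, hH⟩ := N2Aux.common_holder (Ψ := Ψ) (K := C) hC1 fun l => by
    rw [← hΨl]
    exact fourier_holder (ψ l) (h1 l) hG.big (hG.loc l).decay
  have hz : ∀ l, Ψ l 0 = 0 := fun l => by
    rw [← hΨl]
    exact zo n L N A ψ hG l
  -- the constants
  choose K1 hK1 hPB using fun m => pb n N C A (Ψ m) hdet hG.big (hcont m) (hC m)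
  choose K2 r hK2 hr0 hr1 hDE using fun lm : Fin L × Fin L =>
    de n N C H α A (Ψ lm.1) (Ψ lm.2) hG.exp hG.big hG.big' hα (hcont _) (hcont _) (hC _) (hC _)
      (hH _) (hz _)
  rcases Nat.eq_zero_or_pos L with hL | hL
  · subst hL
    exact ⟨0, 0, le_rfl, le_rfl, one_pos, fun p => p.1.elim0⟩
  have hne : (Finset.univ : Finset (Fin L × Fin L)).Nonempty :=
    ⟨(⟨0, hL⟩, ⟨0, hL⟩), Finset.mem_univ _⟩
  set R := Finset.univ.sup' hne r with hR
  have hrR : ∀ lm, r lm ≤ R := fun lm => Finset.le_sup' r (Finset.mem_univ lm)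
  have hR0 : 0 ≤ R := (hr0 (⟨0, hL⟩, ⟨0, hL⟩)).trans (hrR _)
  have hR1 : R < 1 := by
    rw [hR, Finset.sup'_lt_iff]
    exact fun lm _ => hr1 lm
  set K3 := ∑ lm, K2 lm with hK3
  have hK3l : ∀ lm, K2 lm ≤ K3 := fun lm =>
    Finset.single_le_sum (f := K2) (fun lm _ => hK2 lm) (Finset.mem_univ lm)
  have hK30 : 0 ≤ K3 := Finset.sum_nonneg fun lm _ => hK2 lm
  refine ⟨(∑ m, K1 m) * K3, R, mul_nonneg (Finset.sum_nonneg fun m _ => hK1 m) hK30, hR0, hR1, ?_⟩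
  rintro ⟨l, i, k⟩ j b
  -- the function `g`
  set g : E n → ℂ := fun ξ => (((act (Aᵀ ^ (-i)) ξ).ofLp b : ℝ) : ℂ) * fa A ψ (l, i, k) ξ with hg
  have hgL : MemLp g 2 (volume : Measure (E n)) := by
    have h2 := (lf n L N A ψ hG).1 (l, i, k) (act ((Aᵀ ^ (-i))ᵀ) (ek b))
    have h3 : (fun ξ : E n => ((⟪act ((Aᵀ ^ (-i))ᵀ) (ek b), ξ⟫ : ℝ) : ℂ) *
        fa A ψ (l, i, k) ξ) = g := by
      funext ξ
      rw [inner_act, Matrix.transpose_transpose, ek, EuclideanSpace.inner_single_left]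
      simp [hg]
    rwa [h3] at h2
  have hgn : ∀ ξ, ‖g ξ‖ ^ 2 = |A.det| ^ (-i) * (|(act (Aᵀ ^ (-i)) ξ).ofLp b| ^ 2 *
      ‖Ψ l (act (Aᵀ ^ (-i)) ξ)‖ ^ 2) := by
    intro ξ
    rw [hg]
    simp only [fa]
    rw [norm_mul, norm_faff, Complex.norm_real, Real.norm_eq_abs, hΨl]
    have h2 : (|A.det| ^ (-(i : ℝ) / 2)) ^ 2 = |A.det| ^ (-i) := by
      rw [← Real.rpow_natCast, ← Real.rpow_mul hD.le, ← Real.rpow_intCast]
      congr 1
      push_cast
      ring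
    rw [← h2]
    ring
  have hint : ∀ m, ∫ ξ, ‖g ξ‖ ^ 2 * ‖Ψ m (act (Aᵀ ^ (-j)) ξ)‖ ≤
      K3 * R ^ (j - i).natAbs := by
    intro m
    set F : E n → ℝ := fun η => |η.ofLp b| ^ 2 * ‖Ψ l η‖ ^ 2 *
      ‖Ψ m (act (Aᵀ ^ (-(j - i))) η)‖ with hF
    have e1 : ∀ ξ, ‖g ξ‖ ^ 2 * ‖Ψ m (act (Aᵀ ^ (-j)) ξ)‖ =
        |A.det| ^ (-i) * F (act (Aᵀ ^ (-i)) ξ) := by
      intro ξ
      rw [hgn, hF]
      simp only
      rw [← act_mul, ← Matrix.zpow_add hu, show -(j - i) + -i = -j by ring]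
      ring
    have hBi : (Aᵀ ^ (-i)).det ≠ 0 := (hu.det_zpow (-i)).ne_zero
    simp only [e1]
    rw [integral_const_mul, integral_act_real hBi, det_zpow' hdetT, Matrix.det_transpose,
      abs_zpow, ← mul_assoc, mul_inv_cancel₀ (zpow_ne_zero _ hD.ne'), one_mul]
    have hact : Continuous (act (Aᵀ ^ (-(j - i))) : E n → E n) := N2Aux.act_cont _
    have hbig : Integrable (fun η : E n => ‖η‖ ^ 2 * ‖Ψ l η‖ ^ 2 *
        ‖Ψ m (act (Aᵀ ^ (-(j - i))) η)‖) := by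
      have h2 : Integrable (fun η : E n => C ^ 3 * (1 + ‖η‖) ^ (-(2 * N - 2))) := by
        refine Integrable.const_mul (integrable_one_add_norm ?_) _
        rw [finrank_euclideanSpace_fin]
        have := hG.big'
        linarith
      refine h2.mono' ?_ (Eventually.of_forall fun η => ?_)
      · exact (((continuous_norm.pow 2).mul ((hcont l).norm.pow 2)).mul
          ((hcont m).comp hact).norm).aestronglyMeasurable
      · have h3 : 0 < 1 + ‖η‖ := by have := norm_nonneg η; linarith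
        rw [Real.norm_of_nonneg (by positivity)]
        have h4 : ‖η‖ ^ 2 * ‖Ψ l η‖ ^ 2 ≤ C ^ 2 * (1 + ‖η‖) ^ (-(2 * N - 2)) := by
          have h5 : ‖η‖ * ‖Ψ l η‖ ≤ C * (1 + ‖η‖) ^ (1 - N) := by
            have h6 : (1 + ‖η‖) ^ (1 - N) = (1 + ‖η‖) * (1 + ‖η‖) ^ (-N) := by
              rw [sub_eq_add_neg, Real.rpow_add h3, Real.rpow_one]
            rw [h6]
            calc ‖η‖ * ‖Ψ l η‖ ≤ (1 + ‖η‖) * (C * (1 + ‖η‖) ^ (-N)) :=
                  mul_le_mul (by linarith) (hC l η) (norm_nonneg _) h3.le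
              _ = C * ((1 + ‖η‖) * (1 + ‖η‖) ^ (-N)) := by ring
          have h7 : (1 + ‖η‖) ^ (-(2 * N - 2)) = ((1 + ‖η‖) ^ (1 - N)) ^ 2 := by
            rw [← Real.rpow_natCast, ← Real.rpow_mul h3.le]
            congr 1
            push_cast
            ring
          rw [h7, ← mul_pow, ← mul_pow]
          exact pow_le_pow_left₀ (by positivity) h5 2
        calc ‖η‖ ^ 2 * ‖Ψ l η‖ ^ 2 * ‖Ψ m (act (Aᵀ ^ (-(j - i))) η)‖
            ≤ (C ^ 2 * (1 + ‖η‖) ^ (-(2 * N - 2))) * C :=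
              mul_le_mul h4 (hC1 m _) (norm_nonneg _) (by positivity)
          _ = C ^ 3 * (1 + ‖η‖) ^ (-(2 * N - 2)) := by ring
    have hFle : ∫ η, F η ≤ ∫ η, ‖η‖ ^ 2 * ‖Ψ l η‖ ^ 2 *
        ‖Ψ m (act (Aᵀ ^ (-(j - i))) η)‖ := by
      refine integral_mono_of_nonneg (Eventually.of_forall fun η => ?_) hbig
        (Eventually.of_forall fun η => ?_)
      · simp only [hF, Pi.zero_apply]
        positivity
      · simp only [hF]
        have h3 := abs_coord_le η b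
        gcongr
    refine hFle.trans ((hDE (l, m) (j - i)).trans ?_)
    exact mul_le_mul (hK3l _) (pow_le_pow_left₀ (hr0 _) (hrR _) _) (pow_nonneg (hr0 _) _) hK30
  have hgyd : ∀ m (k' : Fin n → ℤ), gyd A ψ (l, i, k) (m, j, k') b =
      ∫ ξ, conj (faff A (Ψ m) j k' ξ) * g ξ := by
    intro m k'
    rw [gyd, hg]
    simp only [fa, hΨl]
  have hs : ∀ m, Summable (fun k' : Fin n → ℤ => ‖gyd A ψ (l, i, k) (m, j, k') b‖ ^ 2) := by
    intro m
    simp only [hgyd]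
    exact (hPB m j g hgL).1
  have hle : ∀ m, ∑' k' : Fin n → ℤ, ‖gyd A ψ (l, i, k) (m, j, k') b‖ ^ 2 ≤
      K1 m * (K3 * R ^ (j - i).natAbs) := by
    intro m
    simp only [hgyd]
    exact ((hPB m j g hgL).2).trans (mul_le_mul_of_nonneg_left (hint m) (hK1 m))
  have hsum : Summable (fun mk : Fin L × (Fin n → ℤ) =>
      ‖gyd A ψ (l, i, k) (mk.1, j, mk.2) b‖ ^ 2) := by
    rw [summable_prod_of_nonneg (fun _ => sq_nonneg _)]
    exact ⟨fun m => hs m, (hasSum_fintype _).summable⟩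
  refine ⟨hsum, ?_⟩
  rw [hsum.tsum_prod, tsum_fintype]
  calc ∑ m, ∑' k' : Fin n → ℤ, ‖gyd A ψ (l, i, k) (m, j, k') b‖ ^ 2
      ≤ ∑ m, K1 m * (K3 * R ^ (j - i).natAbs) := Finset.sum_le_sum fun m _ => hle m
    _ = (∑ m, K1 m) * K3 * R ^ (j - i).natAbs := by
      rw [← Finset.sum_mul, mul_assoc]

end Pool.Agent.Helper93.FX
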